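import Mathlib
import Pool.Agent.R663.NilRankD

/-!
# Affine spaces of nilpotent matrices of constant rank

For all `n ≥ 2`, `1 ≤ r ≤ n - 1` and every field `K` with at least `(n + 2) ^ 2` elements (in
particular every infinite field) the largest dimension of an affine subspace of `M_n(K)` all of
whose elements are nilpotent of rank exactly `r` is `∑_{i=1}^{r} (n - 1 - i)`.
-/

namespace Pool.Agent.Results.MP_5eb035_al.MaxDim

open Module Finset Pool.Agent.R663.NilRank

universe u

variable {K : Type u} [Field K]

/-- The set of dimensions of the affine subspaces of `M_n(K)` (nonempty ones) all of whose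
elements are nilpotent of rank exactly `r`. -/
def Dims (K : Type u) [Field K] (n r : ℕ) : Set ℕ :=
  {d | ∃ S : AffineSubspace K (Matrix (Fin n) (Fin n) K), (S : Set (Matrix (Fin n) (Fin n) K)).Nonempty ∧
    finrank K S.direction = d ∧ ∀ M ∈ S, IsNilpotent M ∧ M.rank = r}

theorem sum_eq (n r : ℕ) (hr : r ≤ n - 1) : ∑ i ∈ Finset.Icc 1 r, (n - 1 - i) + r = B n r := by
  have h1 : ∑ i ∈ Finset.Icc 1 r, (n - 1 - i) = ∑ i ∈ range r, (n - 1 - (i + 1)) := by
    rw [Finset.sum_bij (fun i _ => i - 1)]
    · intro i hi
      have := Finset.mem_Icc.1 hi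
      exact Finset.mem_range.2 (by omega)
    · intro i hi j hj h
      have h1 := Finset.mem_Icc.1 hi
      have h2 := Finset.mem_Icc.1 hj
      omega
    · intro j hj
      have := Finset.mem_range.1 hj
      exact ⟨j + 1, Finset.mem_Icc.2 (by omega), by omega⟩
    · intro i hi
      have h1 := Finset.mem_Icc.1 hi
      congr 1
      omega
  rw [h1, B]
  have h2 : ∀ i ∈ range r, n - 1 - i = (n - 1 - (i + 1)) + 1 := by
    intro i hi
    have := Finset.mem_range.1 hi
    omega
  rw [Finset.sum_congr rfl h2, Finset.sum_add_distrib]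
  simp

theorem upper {n r : ℕ} (hr : r ≤ n - 1)
    (hK : (((n + 2) ^ 2 : ℕ) : Cardinal.{u}) ≤ Cardinal.mk K)
    {S : AffineSubspace K (Matrix (Fin n) (Fin n) K)} {A : Matrix (Fin n) (Fin n) K} (hA : A ∈ S)
    (h : ∀ M ∈ S, IsNilpotent M ∧ M.rank = r) :
    finrank K S.direction ≤ ∑ i ∈ Finset.Icc 1 r, (n - 1 - i) := by
  let e : Matrix (Fin n) (Fin n) K ≃ₗ[K] End K (Fin n → K) := Matrix.toLin'
  have hZ : finrank K (S.direction.map (e : Matrix (Fin n) (Fin n) K →ₗ[K] End K (Fin n → K)))
      = finrank K S.direction := LinearEquiv.finrank_map_eq e _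
  have hmem : ∀ z ∈ S.direction.map (e : Matrix (Fin n) (Fin n) K →ₗ[K] End K (Fin n → K)),
      ∃ M ∈ S, e A + z = e M := by
    rintro _ ⟨z, hz, rfl⟩
    refine ⟨z +ᵥ A, AffineSubspace.vadd_mem_of_mem_direction hz hA, ?_⟩
    change e A + e z = e (z + A)
    rw [map_add, add_comm]
  have h1 := main (K := K) n (Fin n → K) (by simp) hK (e A)
    (S.direction.map (e : Matrix (Fin n) (Fin n) K →ₗ[K] End K (Fin n → K))) r r hr
    (fun z hz => by
      obtain ⟨M, hM, hMe⟩ := hmem z hz
      rw [hMe]
      exact (Matrix.isNilpotent_toLin'_iff M).2 (h M hM).1)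
    (fun z hz => by
      obtain ⟨M, hM, hMe⟩ := hmem z hz
      have h2 : rk (e A + z) = r := by
        rw [hMe, ← (h M hM).2]
        rfl
      omega)
  rw [hZ, ← sum_eq n r hr] at h1
  omega

/-- The pattern of positions `(i, j)` (0-indexed) with `i < r` and `j ≥ i + 2`. -/
def pat (n r : ℕ) : Finset (Fin n × Fin n) :=
  univ.filter (fun p => p.1.val < r ∧ p.1.val + 2 ≤ p.2.val)

/-- Extension by zero from the pattern. -/
def ext (K : Type u) [Field K] (n r : ℕ) :
    (pat n r → K) →ₗ[K] Matrix (Fin n) (Fin n) K where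
  toFun w := Matrix.of (fun i j => if h : (i, j) ∈ pat n r then w ⟨(i, j), h⟩ else 0)
  map_add' v w := by
    ext i j
    simp only [Matrix.of_apply, Matrix.add_apply, Pi.add_apply]
    split_ifs <;> simp
  map_smul' c w := by
    ext i j
    simp only [Matrix.of_apply, Matrix.smul_apply, Pi.smul_apply, RingHom.id_apply]
    split_ifs <;> simp

theorem ext_inj (n r : ℕ) : Function.Injective (ext K n r) := by
  intro v w h
  funext p
  have h1 := congrFun (congrFun h p.1.1) p.1.2
  simp only [ext, LinearMap.coe_mk, AddHom.coe_mk, Matrix.of_apply] at h1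
  rw [dif_pos p.2, dif_pos p.2] at h1
  exact h1

theorem card_pat (n r : ℕ) (hr : r ≤ n - 1) :
    (pat n r).card = ∑ i ∈ Finset.Icc 1 r, (n - 1 - i) := by
  have h1 : (pat n r).card = ∑ i : Fin n, (univ.filter (fun j : Fin n => i.val < r ∧ i.val + 2 ≤ j.val)).card := by
    rw [pat, Finset.card_filter, ← Finset.univ_product_univ, Finset.sum_product]
    refine Finset.sum_congr rfl (fun i _ => ?_)
    rw [Finset.card_filter]
  have h2 : ∀ i : Fin n, (univ.filter (fun j : Fin n => i.val < r ∧ i.val + 2 ≤ j.val)).card
      = if i.val < r then n - 1 - (i.val + 1) else 0 := by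
    intro i
    split_ifs with hi
    · have : (univ.filter (fun j : Fin n => i.val < r ∧ i.val + 2 ≤ j.val)).map Fin.valEmbedding
          = Finset.Ico (i.val + 2) n := by
        ext j
        simp only [Finset.mem_map, Finset.mem_filter, Finset.mem_univ, true_and,
          Fin.valEmbedding_apply, Finset.mem_Ico]
        constructor
        · rintro ⟨a, ⟨_, ha⟩, rfl⟩
          exact ⟨ha, a.2⟩
        · rintro ⟨ha, hb⟩
          exact ⟨⟨j, hb⟩, ⟨hi, ha⟩, rfl⟩
      rw [← Finset.card_map Fin.valEmbedding, this, Nat.card_Ico]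
      omega
    · rw [Finset.card_eq_zero, Finset.filter_eq_empty_iff]
      intro j _ h
      exact hi h.1
  rw [h1, Finset.sum_congr rfl (fun i _ => h2 i)]
  have h3 := sum_eq n r hr
  have h4 : ∑ i ∈ Finset.Icc 1 r, (n - 1 - i) = ∑ i ∈ range r, (n - 1 - (i + 1)) := by
    rw [Finset.sum_bij (fun i _ => i - 1)]
    · intro i hi
      have := Finset.mem_Icc.1 hi
      exact Finset.mem_range.2 (by omega)
    · intro i hi j hj h
      have h1 := Finset.mem_Icc.1 hi
      have h2 := Finset.mem_Icc.1 hj
      omega
    · intro j hj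
      have := Finset.mem_range.1 hj
      exact ⟨j + 1, Finset.mem_Icc.2 (by omega), by omega⟩
    · intro i hi
      have h1 := Finset.mem_Icc.1 hi
      congr 1
      omega
  rw [h4, Fin.sum_univ_eq_sum_range (fun i => if i < r then n - 1 - (i + 1) else 0) n,
    ← Finset.sum_filter]
  refine Finset.sum_congr ?_ (fun _ _ => rfl)
  ext i
  simp only [Finset.mem_filter, Finset.mem_range]
  omega

/-- The base point: ones at `(i, i + 1)` for `i < r`. -/
def base (K : Type u) [Field K] (n r : ℕ) : Matrix (Fin n) (Fin n) K :=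
  Matrix.of (fun i j => if i.val < r ∧ j.val = i.val + 1 then 1 else 0)

theorem lower {n r : ℕ} (hn : 1 ≤ n) (hr : r ≤ n - 1) :
    (∑ i ∈ Finset.Icc 1 r, (n - 1 - i)) ∈ Dims K n r := by
  refine ⟨AffineSubspace.mk' (base K n r) (LinearMap.range (ext K n r)),
    AffineSubspace.mk'_nonempty _ _, ?_, ?_⟩
  · rw [AffineSubspace.direction_mk', LinearMap.finrank_range_of_inj (ext_inj n r),
      Module.finrank_fintype_fun_eq_card, Fintype.card_coe, card_pat n r hr]
  · intro M hM
    rw [AffineSubspace.mem_mk'] at hM
    obtain ⟨w, hw⟩ := hM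
    have hMe : ∀ i j, M i j = (if i.val < r ∧ j.val = i.val + 1 then 1 else 0) +
        (if h : (i, j) ∈ pat n r then w ⟨(i, j), h⟩ else 0) := by
      intro i j
      have h1 := congrFun (congrFun hw i) j
      simp only [ext, LinearMap.coe_mk, AddHom.coe_mk, Matrix.of_apply, vsub_eq_sub,
        Matrix.sub_apply, base] at h1
      rw [h1]; ring
    have hup : ∀ i j : Fin n, j.val ≤ i.val → M i j = 0 := by
      intro i j hij
      rw [hMe, if_neg (by omega), dif_neg (by simp [pat]; omega), add_zero]
    have hrow : ∀ i j : Fin n, r ≤ i.val → M i j = 0 := by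
      intro i j hij
      rw [hMe, if_neg (by omega), dif_neg (by simp [pat]; omega), add_zero]
    have hone : ∀ i j : Fin n, i.val < r → j.val = i.val + 1 → M i j = 1 := by
      intro i j hi hj
      rw [hMe, if_pos ⟨hi, hj⟩, dif_neg (by simp [pat]; omega), add_zero]
    constructor
    · have htri : M.IsUpperTriangular := by
        intro i j hij
        exact hup i j (le_of_lt hij)
      have h1 := Matrix.charpoly_of_isUpperTriangular M htri
      have h2 : M.charpoly = Polynomial.X ^ n := by
        rw [h1]
        simp [hup]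
      have h3 := M.aeval_self_charpoly
      rw [h2] at h3
      exact ⟨n, by simpa using h3⟩
    · refine le_antisymm ?_ ?_
      · have h1 := Matrix.rank_le_card_of_support_subset M
          (univ.filter (fun i : Fin n => i.val < r)) (by
            intro i hi
            rw [Function.mem_support] at hi
            by_contra hno
            apply hi
            funext j
            refine hrow i j ?_
            simpa using hno)
        refine le_trans h1 ?_
        have h2 : ((univ.filter (fun i : Fin n => i.val < r)).map Fin.valEmbedding) ⊆ range r := by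
          intro j hj
          obtain ⟨a, ha, rfl⟩ := Finset.mem_map.1 hj
          simpa using ha
        have h3 := Finset.card_le_card h2
        rwa [Finset.card_map, Finset.card_range] at h3
      · let f : Fin r → Fin n := fun i => ⟨i.val, by omega⟩
        let g : Fin r → Fin n := fun i => ⟨i.val + 1, by omega⟩
        have htri : (M.submatrix f g).IsUpperTriangular := by
          intro i j hij
          have hij' : j.val < i.val := hij
          exact hup _ _ (by simp [f, g]; omega)
        have hdet : (M.submatrix f g).det = 1 := by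
          rw [Matrix.det_of_isUpperTriangular htri]
          refine Finset.prod_eq_one (fun i _ => ?_)
          exact hone _ _ i.2 rfl
        have h1 : (M.submatrix f g).rank = Fintype.card (Fin r) :=
          Matrix.rank_of_det_ne_zero (by rw [hdet]; exact one_ne_zero)
        rw [Fintype.card_fin] at h1
        rw [← h1]
        exact Matrix.rank_submatrix_le M f g

/-- Q1 is true, with the explicit bound `N(n, r) = (n + 2) ^ 2`: for all `n ≥ 2` and
`1 ≤ r ≤ n - 1` and all fields `K` with `|K| ≥ (n + 2) ^ 2`, the largest dimension of an affine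
subspace of `M_n(K)` whose elements are all nilpotent of rank exactly `r` is
`∑_{i=1}^{r} (n - 1 - i)`. -/
theorem result (n r : ℕ) (hn : 2 ≤ n) (_hr1 : 1 ≤ r) (hr : r ≤ n - 1) (K : Type u) [Field K]
    (hK : (((n + 2) ^ 2 : ℕ) : Cardinal.{u}) ≤ Cardinal.mk K) :
    IsGreatest
      {d : ℕ | ∃ S : AffineSubspace K (Matrix (Fin n) (Fin n) K),
        (S : Set (Matrix (Fin n) (Fin n) K)).Nonempty ∧ Module.finrank K S.direction = d ∧
        ∀ M ∈ S, IsNilpotent M ∧ M.rank = r}
      (∑ i ∈ Finset.Icc 1 r, (n - 1 - i)) := by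
  refine ⟨lower (by omega) hr, ?_⟩
  rintro d ⟨S, ⟨A, hA⟩, rfl, h⟩
  exact upper hr hK hA h

end Pool.Agent.Results.MP_5eb035_al.MaxDim
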